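import Pool.Agent.P8H48.LV.Stm

/-! Project LV, part SHF. -/

set_option autoImplicit false

open CategoryTheory AlgebraicGeometry Pool.Agent.Y116.UV Pool.Agent.Z125.UN
open Pool.Agent.P8H48.LV

namespace Pool.Agent.P8H66.LV

/-- transport along an isomorphism of algebras -/
theorem iso_lv {R : Type} [CommRing R] {P : ℕ → Sch R → Prop} (hP : Lv P) (n : ℕ) {A B : Type}
    [CommRing A] [CommRing B] [Algebra R A] [Algebra R B] [Algebra.FiniteType R A]
    (e : A ≃ₐ[R] B) (h : P n (aff R A)) : P n (aff R B) :=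
  hP.iso n (ft_aff False) ⟨(affIso e).symm⟩ h

/-- localization after a surjection whose kernel is killed by `y` -/
theorem loc_of {C B L : Type} [CommRing C] [CommRing B] [CommRing L] [Algebra B L] [Algebra C L]
    (φ : C →+* B) (hφ : Function.Surjective φ) (y : C) (hk : ∀ c, φ c = 0 → y * c = 0)
    (hal : ∀ c, algebraMap C L c = algebraMap B L (φ c)) [IsLocalization.Away (φ y) L] :
    IsLocalization.Away y L := by
  have hu : IsUnit (algebraMap C L y) := by
    rw [hal]
    exact IsLocalization.Away.algebraMap_isUnit (S := L) (φ y)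
  refine ⟨?_, ?_, ?_⟩
  · rintro ⟨_, n, rfl⟩
    change IsUnit (algebraMap C L (y ^ n))
    rw [map_pow]
    exact hu.pow n
  · intro z
    obtain ⟨⟨b, ⟨_, n, rfl⟩⟩, hb⟩ := IsLocalization.surj (Submonoid.powers (φ y)) z
    obtain ⟨c, rfl⟩ := hφ b
    refine ⟨(c, ⟨y ^ n, n, rfl⟩), ?_⟩
    change z * algebraMap C L (y ^ n) = algebraMap C L c
    rw [hal, hal, map_pow]
    exact hb
  · intro u v huv
    rw [hal, hal] at huv
    obtain ⟨⟨_, n, rfl⟩, hc⟩ := (IsLocalization.eq_iff_exists
      (Submonoid.powers (φ y)) L).mp huv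
    refine ⟨⟨y ^ (n + 1), n + 1, rfl⟩, ?_⟩
    change y ^ (n + 1) * u = y ^ (n + 1) * v
    have h6 : φ (y ^ n * u - y ^ n * v) = 0 := by
      rw [map_sub, map_mul, map_mul, map_pow]
      exact sub_eq_zero.mpr hc
    have h7 := hk _ h6
    rw [← sub_eq_zero]
    calc y ^ (n + 1) * u - y ^ (n + 1) * v = y * (y ^ n * u - y ^ n * v) := by ring
      _ = 0 := h7

section

open Polynomial

variable {A : Type} [CommRing A] (f : A)

/-- the ring `A[X] / (X f)` -/
abbrev CC : Type := A[X] ⧸ Ideal.span {(X : A[X]) * C f}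

/-- the map to `(A / f)[X]` -/
noncomputable def phi : CC f →+* (A ⧸ Ideal.span {f})[X] :=
  Ideal.Quotient.lift _ (mapRingHom (Ideal.Quotient.mk (Ideal.span {f}))) (by
    intro a ha
    obtain ⟨b, rfl⟩ := Ideal.mem_span_singleton'.1 ha
    have : (Ideal.Quotient.mk (Ideal.span {f})) f = 0 :=
      Ideal.Quotient.eq_zero_iff_mem.2 (Ideal.mem_span_singleton_self f)
    rw [coe_mapRingHom, Polynomial.map_mul, Polynomial.map_mul, map_C, this, C_0, mul_zero,
      mul_zero])

theorem phi_mk (p : A[X]) : phi f (Ideal.Quotient.mk _ p) =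
    p.map (Ideal.Quotient.mk (Ideal.span {f})) := rfl

theorem phi_surj : Function.Surjective (phi f) := by
  intro q
  obtain ⟨p, rfl⟩ := Polynomial.map_surjective _ Ideal.Quotient.mk_surjective q
  exact ⟨Ideal.Quotient.mk _ p, rfl⟩

theorem phi_ker (c : CC f) (hc : phi f c = 0) : Ideal.Quotient.mk _ X * c = 0 := by
  obtain ⟨p, rfl⟩ := Ideal.Quotient.mk_surjective c
  rw [phi_mk] at hc
  have h1 : p ∈ Ideal.map C (Ideal.span {f}) := by
    rw [Ideal.mem_map_C_iff]
    intro n
    have h2 : (p.map (Ideal.Quotient.mk (Ideal.span {f}))).coeff n = 0 := by rw [hc, coeff_zero]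
    rw [coeff_map] at h2
    exact Ideal.Quotient.eq_zero_iff_mem.1 h2
  rw [Ideal.map_span, Set.image_singleton, Ideal.mem_span_singleton'] at h1
  obtain ⟨q, rfl⟩ := h1
  rw [← map_mul, Ideal.Quotient.eq_zero_iff_mem, Ideal.mem_span_singleton']
  exact ⟨q, by ring⟩

/-- evaluation at zero -/
noncomputable def psi (R : Type) [CommRing R] [Algebra R A] : CC f →ₐ[R] A :=
  Ideal.Quotient.liftₐ _ ((aeval (0 : A) : A[X] →ₐ[A] A).restrictScalars R) (by
    intro a ha
    obtain ⟨b, rfl⟩ := Ideal.mem_span_singleton'.1 ha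
    simp)

theorem psi_mk (R : Type) [CommRing R] [Algebra R A] (p : A[X]) :
    psi f R (Ideal.Quotient.mk _ p) = p.eval 0 := by
  change (aeval (0 : A) : A[X] →ₐ[A] A) p = _
  rw [coe_aeval_eq_eval]

theorem psi_surj (R : Type) [CommRing R] [Algebra R A] : Function.Surjective (psi f R) := by
  intro a
  exact ⟨Ideal.Quotient.mk _ (C a), by rw [psi_mk, eval_C]⟩

theorem psi_ker (R : Type) [CommRing R] [Algebra R A] :
    Ideal.span {(Ideal.Quotient.mk _ X : CC f)} = RingHom.ker (psi f R) := by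
  ext c
  obtain ⟨p, rfl⟩ := Ideal.Quotient.mk_surjective c
  rw [RingHom.mem_ker, psi_mk, Ideal.mem_span_singleton]
  constructor
  · rintro ⟨d, hd⟩
    obtain ⟨q, rfl⟩ := Ideal.Quotient.mk_surjective d
    have h1 := congrArg (psi f R) hd
    rw [psi_mk, map_mul, psi_mk, psi_mk, eval_X, zero_mul] at h1
    exact h1
  · intro h
    have h1 : X ∣ p := by
      rw [X_dvd_iff, coeff_zero_eq_eval_zero]
      exact h
    obtain ⟨q, rfl⟩ := h1
    exact ⟨Ideal.Quotient.mk _ q, map_mul _ _ _⟩

end

section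

open Polynomial

variable {R : Type} [CommRing R] {A : Type} [CommRing A] [Algebra R A] (f : A)

/-- `(A / f)[X] = A[X] / f` -/
noncomputable def polyQuot :
    (A[X] ⧸ Ideal.span {(C f : A[X])}) ≃ₐ[R] (A ⧸ Ideal.span {f})[X] :=
  AlgEquiv.ofRingEquiv (f := ((Ideal.quotEquivOfEq (by
      rw [Ideal.map_span, Set.image_singleton] :
        Ideal.span {(C f : A[X])} = Ideal.map C (Ideal.span {f}))).trans
    (Ideal.polynomialQuotientEquivQuotientPolynomial (Ideal.span {f})).symm)) (by
      intro r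
      have h1 : algebraMap R (A[X] ⧸ Ideal.span {(C f : A[X])}) r =
          Ideal.Quotient.mk _ (C (algebraMap R A r)) := rfl
      have h2 : algebraMap R ((A ⧸ Ideal.span {f})[X]) r =
          (C (algebraMap R A r)).map (Ideal.Quotient.mk (Ideal.span {f})) := by
        rw [map_C]
        rfl
      rw [h1, h2, RingEquiv.trans_apply, Ideal.quotEquivOfEq_mk,
        Ideal.polynomialQuotientEquivQuotientPolynomial_symm_mk])

/-- the localization of `A[X] / (X f)` at `X` -/
noncomputable def locEquiv : Localization.Away (Ideal.Quotient.mk _ X : CC f) ≃ₐ[R]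
    LaurentPolynomial (A ⧸ Ideal.span {f}) := by
  letI : Algebra (CC f) (LaurentPolynomial (A ⧸ Ideal.span {f})) :=
    ((algebraMap (A ⧸ Ideal.span {f})[X] (LaurentPolynomial (A ⧸ Ideal.span {f}))).comp
      (phi f)).toAlgebra
  have hX : phi f (Ideal.Quotient.mk _ X) = X := by rw [phi_mk, map_X]
  haveI : IsLocalization.Away (phi f (Ideal.Quotient.mk _ X))
      (LaurentPolynomial (A ⧸ Ideal.span {f})) := by
    rw [hX]
    exact LaurentPolynomial.isLocalization
  haveI : IsLocalization.Away (Ideal.Quotient.mk _ X : CC f)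
      (LaurentPolynomial (A ⧸ Ideal.span {f})) :=
    loc_of (phi f) (phi_surj f) _ (phi_ker f) (fun c => rfl)
  let e : Localization.Away (Ideal.Quotient.mk _ X : CC f) ≃ₐ[CC f]
      LaurentPolynomial (A ⧸ Ideal.span {f}) :=
    IsLocalization.algEquiv (Submonoid.powers (Ideal.Quotient.mk _ X : CC f)) _ _
  exact AlgEquiv.ofRingEquiv (f := e.toRingEquiv) (by
    intro r
    change e (algebraMap R _ r) = _
    rw [IsScalarTower.algebraMap_apply R (CC f), e.commutes]
    change algebraMap (A ⧸ Ideal.span {f})[X] (LaurentPolynomial (A ⧸ Ideal.span {f}))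
      (phi f (algebraMap R (CC f) r)) = _
    have h1 : phi f (algebraMap R (CC f) r) = C (algebraMap R (A ⧸ Ideal.span {f}) r) := by
      have : algebraMap R (CC f) r = Ideal.Quotient.mk _ (C (algebraMap R A r)) := rfl
      rw [this, phi_mk, map_C]
      rfl
    rw [h1, LaurentPolynomial.algebraMap_eq_toLaurent, Polynomial.toLaurent_C]
    rfl)

end

theorem shf1 (hPOL : S_POL) {R : Type} [CommRing R] {P : ℕ → Sch R → Prop} (hP : Lv P) (n : ℕ)
    {A : Type} [CommRing A] [Algebra R A] [Algebra.FiniteType R A] (f : A)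
    (h : P n (aff R (Polynomial A ⧸ Ideal.span {(Polynomial.C f : Polynomial A)}))) :
    P n (aff R (A ⧸ Ideal.span {f})) := by
  have h2 := iso_lv hP n (polyQuot (R := R) f) h
  have h3 := iso_lv hP n
    ((MvPolynomial.pUnitAlgEquiv (A ⧸ Ideal.span {f})).symm.restrictScalars R) h2
  exact (hPOL R P hP n (A ⧸ Ideal.span {f}) PUnit).2 h3

theorem shf2 {R : Type} [CommRing R] {P : ℕ → Sch R → Prop} (hP : Lv P) (n : ℕ)
    {A : Type} [CommRing A] [Algebra R A] [Algebra.FiniteType R A] (f : A)
    (hA : P n (aff R A)) (h2 : P (n + 1) (aff R (CC f))) :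
    P n (aff R (A ⧸ Ideal.span {f})) := by
  let e2 : A ≃ₐ[R] (CC f ⧸ Ideal.span {(Ideal.Quotient.mk _ Polynomial.X : CC f)}) :=
    ((Ideal.quotientEquivAlgOfEq R (psi_ker f R)).trans
      (Ideal.quotientKerAlgEquivOfSurjective (psi_surj f R))).symm
  have h3 : P n (aff R (CC f ⧸ Ideal.span {(Ideal.Quotient.mk _ Polynomial.X : CC f)})) :=
    iso_lv (B := CC f ⧸ Ideal.span {(Ideal.Quotient.mk _ Polynomial.X : CC f)}) hP n e2 hA
  have hft : Algebra.FiniteType R (CC f) :=
    Algebra.FiniteType.trans (S := A) inferInstance inferInstance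
  have h4 := hP.opened n _ _ (ft_aff False)
    (triple_away (R := R) (Ideal.Quotient.mk _ Polynomial.X : CC f)) h2 h3
  have hft2 : Algebra.FiniteType R (Localization.Away (Ideal.Quotient.mk _ Polynomial.X : CC f)) :=
    Algebra.FiniteType.trans (S := CC f) inferInstance inferInstance
  have h5 := iso_lv hP (n + 1) (locEquiv f) h4
  exact hP.torus n (A ⧸ Ideal.span {f}) h5

theorem shf : S_POL → S_SHF := by
  intro hPOL R _ P hP n m
  have hA : P n (aff R (MvPolynomial (Fin m) R)) := (hPOL R P hP n R (Fin m)).1 (hP.base n)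
  constructor
  · intro h f
    have h1 := h ((MvPolynomial.finSuccEquiv R m).symm (Polynomial.C f))
    let e1 : (MvPolynomial (Fin (m + 1)) R ⧸
        Ideal.span {(MvPolynomial.finSuccEquiv R m).symm (Polynomial.C f)}) ≃ₐ[R]
        (Polynomial (MvPolynomial (Fin m) R) ⧸
          Ideal.span {(Polynomial.C f : Polynomial (MvPolynomial (Fin m) R))}) :=
      Ideal.quotientEquivAlg _ _ (MvPolynomial.finSuccEquiv R m) (by
        rw [Ideal.map_span, Set.image_singleton]
        congr 2
        exact ((MvPolynomial.finSuccEquiv R m).apply_symm_apply _).symm)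
    exact shf1 hPOL hP n f (iso_lv hP n e1 h1)
  · intro h f
    have h1 := h ((MvPolynomial.finSuccEquiv R m).symm (Polynomial.X * Polynomial.C f))
    let e1 : (MvPolynomial (Fin (m + 1)) R ⧸
        Ideal.span {(MvPolynomial.finSuccEquiv R m).symm
          (Polynomial.X * Polynomial.C f)}) ≃ₐ[R] CC f :=
      Ideal.quotientEquivAlg _ _ (MvPolynomial.finSuccEquiv R m) (by
        rw [Ideal.map_span, Set.image_singleton]
        congr 2
        exact ((MvPolynomial.finSuccEquiv R m).apply_symm_apply _).symm)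
    exact shf2 hP n f hA (iso_lv hP (n + 1) e1 h1)

end Pool.Agent.P8H66.LV
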